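import Pool.Agent.H30.ChB

set_option autoImplicit false

namespace Pool.Agent.Results.MP_f4fb69_gt.CH

open Pool.Agent.H30.Ch

/-- Under CH the statement of the problem fails. -/
theorem result (h : (Cardinal.continuum : Cardinal.{0}) = Cardinal.aleph 1) :
    ¬ ∀ (X : Type) [TopologicalSpace X] [T35Space X],
      (∀ S : Set (X → ℝ), (∀ f ∈ S, Continuous f) →
        ∃ D ⊆ S, D.Countable ∧ S ⊆ closure D) →
      ∀ S : Set (X → ℝ), (∀ f ∈ S, Continuous f) →
        ∃ D ⊆ S, D.Countable ∧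
          ∀ f ∈ S, ∃ u : ℕ → X → ℝ, (∀ n, u n ∈ D) ∧
            Filter.Tendsto u Filter.atTop (nhds f) := by
  intro H
  obtain ⟨x, hx⟩ := exists_gen h
  obtain ⟨D, h1, h2, h3⟩ := H (Set.range x) (fun S hS => by
    obtain ⟨D, h1, h2, h3⟩ := cp_hs hx.hl (Subtype.val ⁻¹' S)
    refine ⟨Subtype.val '' D, Set.image_subset_iff.2 h1, h2.image _, fun f hf => ?_⟩
    exact image_closure_subset_closure_image continuous_subtype_val ⟨⟨f, hS f hf⟩, h3 hf, rfl⟩)
    {f | Continuous f} fun _ hf => hf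
  obtain ⟨g, h4, h5⟩ := hx.not_seq h2 fun f hf => h1 hf
  obtain ⟨u, h6, h7⟩ := h3 g h4
  exact h5 u h6 h7

end Pool.Agent.Results.MP_f4fb69_gt.CH
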